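import Pool.Agent.Lib.MP_776403_ag.NS.Defs

noncomputable section

namespace Pool.Agent.Lib.MP_776403_ag.NS

open Finset

lemma gbinom_pascal (y : ℂ) (n : ℕ) :
    gbinom (y + 1) (n + 1) = gbinom y (n + 1) + gbinom y n := by
  unfold gbinom
  have hf : ((n + 1).factorial : ℂ) = (n + 1) * (n.factorial : ℂ) := by
    rw [Nat.factorial_succ]; push_cast; ring
  have hf0 : (n.factorial : ℂ) ≠ 0 := by exact_mod_cast Nat.factorial_ne_zero n
  have hn0 : ((n : ℂ) + 1) ≠ 0 := by exact_mod_cast Nat.succ_ne_zero n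
  have h1 : ∏ j ∈ range (n + 1), (y + 1 - (j : ℂ)) = (y + 1) * ∏ j ∈ range n, (y - (j : ℂ)) := by
    rw [prod_range_succ']
    rw [mul_comm]
    congr 1
    · push_cast; ring
    · apply prod_congr rfl
      intro j _
      push_cast; ring
  have h2 : ∏ j ∈ range (n + 1), (y - (j : ℂ)) = (∏ j ∈ range n, (y - (j : ℂ))) * (y - n) :=
    prod_range_succ _ _
  rw [h1, h2, hf]
  field_simp
  ring

/-- the alternating sum of the values of `f` at the subset sums -/
def Lf {c : ℕ} (x : Fin c → ℂ) (f : ℂ → ℂ) : ℂ :=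
  ∑ S : Finset (Fin c), (-1 : ℂ) ^ S.card * f (∑ i ∈ S, x i)

lemma rr_step (N : ℕ) {c : ℕ} (x : Fin c → ℂ) (k : ℂ) :
    rrPoly (N + 1) x k - rrPoly (N + 1) x (k - 1) = rrPoly N x k := by
  unfold rrPoly
  rw [← sum_sub_distrib]
  apply sum_congr rfl
  intro S _
  rw [← mul_sub]
  congr 1
  have e1 : (((N + 1 : ℕ) : ℂ) + k - ∑ i ∈ S, x i) = ((N : ℂ) + k - ∑ i ∈ S, x i) + 1 := by
    push_cast; ring
  have e2 : (((N + 1 : ℕ) : ℂ) + (k - 1) - ∑ i ∈ S, x i) = ((N : ℂ) + k - ∑ i ∈ S, x i) := by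
    push_cast; ring
  rw [e1, e2, gbinom_pascal]
  ring

lemma rr_desc {c : ℕ} (x : Fin c → ℂ) (a N : ℕ)
    (h : ∀ k : ℕ, 1 ≤ k → a + k ≤ N → rrPoly N x (-(k : ℂ)) = 0) :
    ∀ m N' : ℕ, N' + m = N → ∀ k : ℕ, 1 ≤ k → a + k ≤ N' → rrPoly N' x (-(k : ℂ)) = 0 := by
  intro m
  induction m with
  | zero =>
    intro N' hN' k hk hk'
    obtain rfl : N' = N := by omega
    exact h k hk hk'
  | succ m ih =>
    intro N' hN' k hk hk'
    have h1 := ih (N' + 1) (by omega) k hk (by omega)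
    have h2 := ih (N' + 1) (by omega) (k + 1) (by omega) (by omega)
    have h3 := rr_step N' x (-(k : ℂ))
    have e : (-(k : ℂ) - 1) = -((k + 1 : ℕ) : ℂ) := by push_cast; ring
    rw [e, h1, h2, sub_zero] at h3
    exact h3.symm

lemma gbinom_reflect (v : ℂ) (j : ℕ) : gbinom ((j : ℂ) - 1 - v) j = (-1) ^ j * gbinom v j := by
  unfold gbinom
  rw [← mul_div_assoc]
  congr 1
  rw [← prod_range_reflect]
  have : ((-1 : ℂ)) ^ j = ∏ _i ∈ range j, (-1 : ℂ) := by simp
  rw [this, ← prod_mul_distrib]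
  apply prod_congr rfl
  intro i hi
  have hi' : i < j := mem_range.mp hi
  have e : ((j - 1 - i : ℕ) : ℂ) = (j : ℂ) - 1 - i := by
    have h0 : j - 1 - i + (1 + i) = j := by omega
    have h1 : ((j - 1 - i + (1 + i) : ℕ) : ℂ) = (j : ℂ) := by rw [h0]
    push_cast at h1
    linear_combination h1
  rw [e]
  ring

/-- the functional kills `binom(v, j)` for `a < j ≤ N` -/
lemma L_gbinom {c : ℕ} (x : Fin c → ℂ) (a N : ℕ)
    (h : ∀ k : ℕ, 1 ≤ k → a + k ≤ N → rrPoly N x (-(k : ℂ)) = 0) (j : ℕ) (hj : a < j)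
    (hjN : j ≤ N) : Lf x (fun v => gbinom v j) = 0 := by
  have h1 := rr_desc x a N h (N - j) j (by omega) 1 le_rfl (by omega)
  unfold rrPoly at h1
  unfold Lf
  have h2 : ∑ S : Finset (Fin c), (-1 : ℂ) ^ S.card * gbinom (j + -((1 : ℕ) : ℂ) - ∑ i ∈ S, x i) j
      = (-1) ^ j * ∑ S : Finset (Fin c), (-1 : ℂ) ^ S.card * gbinom (∑ i ∈ S, x i) j := by
    rw [mul_sum]
    apply sum_congr rfl
    intro S _
    have e : ((j : ℂ) + -((1 : ℕ) : ℂ) - ∑ i ∈ S, x i) = (j : ℂ) - 1 - ∑ i ∈ S, x i := by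
      push_cast; ring
    rw [e, gbinom_reflect]
    ring
  rw [h2] at h1
  rcases mul_eq_zero.mp h1 with h3 | h3
  · exact absurd h3 (pow_ne_zero _ (by norm_num))
  · exact h3

lemma Lf_add {c : ℕ} (x : Fin c → ℂ) (f g : ℂ → ℂ) :
    Lf x (fun v => f v + g v) = Lf x f + Lf x g := by
  unfold Lf
  rw [← sum_add_distrib]
  apply sum_congr rfl
  intro S _
  ring

lemma Lf_smul {c : ℕ} (x : Fin c → ℂ) (t : ℂ) (f : ℂ → ℂ) :
    Lf x (fun v => t * f v) = t * Lf x f := by
  unfold Lf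
  rw [mul_sum]
  apply sum_congr rfl
  intro S _
  ring

lemma Lf_reflect {c : ℕ} (x : Fin c → ℂ) (a : ℂ) (ha : ∑ i, x i = a) (f : ℂ → ℂ) :
    Lf x (fun v => f (a - v)) = (-1) ^ c * Lf x f := by
  unfold Lf
  rw [mul_sum]
  apply Fintype.sum_bijective (fun S : Finset (Fin c) => Sᶜ) compl_bijective
  intro S
  have h1 : ∑ i ∈ Sᶜ, x i = a - ∑ i ∈ S, x i := by
    rw [← ha, ← sum_add_sum_compl S x]; ring
  have h2 : Sᶜ.card = c - S.card := by rw [card_compl]; simp
  have h3 : S.card ≤ c := by simpa using card_le_univ S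
  have h4 : (-1 : ℂ) ^ c * (-1 : ℂ) ^ (c - S.card) = (-1) ^ S.card := by
    have e : c = S.card + (c - S.card) := by omega
    have e2 : (-1 : ℂ) ^ c = (-1) ^ S.card * (-1) ^ (c - S.card) := by
      conv_lhs => rw [e]
      rw [pow_add]
    rw [e2, mul_assoc, ← pow_add, ← two_mul, pow_mul]
    norm_num
  rw [h1, h2, ← mul_assoc, h4]

open Polynomial in
/-- a polynomial of degree `≤ N` which vanishes at `0, ..., a` is killed by the functional -/
lemma L_poly {c : ℕ} (x : Fin c → ℂ) (a N : ℕ)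
    (h : ∀ k : ℕ, 1 ≤ k → a + k ≤ N → rrPoly N x (-(k : ℂ)) = 0) :
    ∀ n : ℕ, ∀ q : ℂ[X], q.natDegree < n → q.natDegree ≤ N →
      (∀ j : ℕ, j ≤ a → q.eval (j : ℂ) = 0) → Lf x (fun v => q.eval v) = 0 := by
  intro n
  induction n with
  | zero => intro q hq; omega
  | succ n ih =>
    intro q hq hqN hv
    by_cases hq0 : q = 0
    · subst hq0
      simp [Lf]
    by_cases hD : q.natDegree ≤ a
    · exfalso
      apply hq0
      apply Polynomial.eq_zero_of_natDegree_lt_card_of_eval_eq_zero' q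
        ((range (a + 1)).image (fun j : ℕ => (j : ℂ)))
      · intro i hi
        obtain ⟨j, hj, rfl⟩ := mem_image.mp hi
        exact hv j (by have := mem_range.mp hj; omega)
      · rw [card_image_of_injective _ Nat.cast_injective, card_range]
        omega
    rw [not_le] at hD
    set D := q.natDegree with hDdef
    set pD : ℂ[X] := ∏ j ∈ range D, (X - C (j : ℂ)) with hpD
    have hmon : pD.Monic := monic_prod_of_monic _ _ (fun j _ => monic_X_sub_C _)
    have hdeg : pD.natDegree = D := by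
      rw [hpD, natDegree_prod_of_monic _ _ (fun j _ => monic_X_sub_C _)]
      simp only [natDegree_X_sub_C, sum_const, card_range, smul_eq_mul, mul_one]
    have hlc : q.leadingCoeff ≠ 0 := leadingCoeff_ne_zero.mpr hq0
    set r : ℂ[X] := q - C q.leadingCoeff * pD with hr
    have hdq : q.degree = (C q.leadingCoeff * pD).degree := by
      rw [degree_C_mul hlc, degree_eq_natDegree hq0, degree_eq_natDegree hmon.ne_zero, hdeg]
    have hlt : r.degree < q.degree := by
      apply degree_sub_lt_left hdq hq0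
      rw [leadingCoeff_mul, leadingCoeff_C, hmon.leadingCoeff, mul_one]
    have hevalp : ∀ v : ℂ, pD.eval v = (D.factorial : ℂ) * gbinom v D := by
      intro v
      rw [hpD, eval_prod]
      unfold gbinom
      have hf0 : (D.factorial : ℂ) ≠ 0 := by exact_mod_cast Nat.factorial_ne_zero D
      field_simp
      apply prod_congr rfl
      intro j _
      simp
    have hrv : ∀ j : ℕ, j ≤ a → r.eval (j : ℂ) = 0 := by
      intro j hj
      rw [hr, eval_sub, hv j hj, eval_mul, eval_C, hpD, eval_prod]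
      rw [prod_eq_zero (mem_range.mpr (lt_of_le_of_lt hj hD))]
      · simp
      · simp
    have hrdeg : r.natDegree < D := by
      by_cases hr0 : r = 0
      · rw [hr0, natDegree_zero]; omega
      · exact natDegree_lt_natDegree hr0 hlt
    have hL := ih r (by omega) (by omega) hrv
    have hsplit : (fun v => q.eval v) = fun v =>
        r.eval v + (q.leadingCoeff * (D.factorial : ℂ)) * gbinom v D := by
      funext v
      rw [hr, eval_sub, eval_mul, eval_C, hevalp]
      ring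
    rw [hsplit, Lf_add, hL, Lf_smul, L_gbinom x a N h D hD hqN]
    simp

end Pool.Agent.Lib.MP_776403_ag.NS
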