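import Pool.Agent.Lib.MP_776403_ag.NS.A

noncomputable section

namespace Pool.Agent.Lib.MP_776403_ag.NS

open Finset Polynomial

/-- the polynomial `binom(M - v, N)` in `v` -/
def bq (M N : ℕ) : ℂ[X] := C ((N.factorial : ℂ)⁻¹) * ∏ j ∈ range N, (C ((M : ℂ) - j) - X)

lemma bq_eval (M N : ℕ) (v : ℂ) : (bq M N).eval v = gbinom ((M : ℂ) - v) N := by
  unfold bq gbinom
  rw [eval_mul, eval_C, eval_prod, div_eq_inv_mul]
  congr 1
  apply prod_congr rfl
  intro j _
  rw [eval_sub, eval_C, eval_X]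
  ring

lemma bq_natDegree (M N : ℕ) : (bq M N).natDegree ≤ N := by
  unfold bq
  refine (natDegree_C_mul_le _ _).trans ?_
  refine (natDegree_prod_le _ _).trans ?_
  calc ∑ j ∈ range N, (C ((M : ℂ) - j) - X).natDegree ≤ ∑ j ∈ range N, 1 := by
        apply sum_le_sum
        intro j _
        refine (natDegree_sub_le _ _).trans (max_le ?_ ?_)
        · rw [natDegree_C]; exact Nat.zero_le _
        · rw [natDegree_X]
    _ = N := by simp

/-- `binom(m, N) = 0` for natural `m < N`, and `binom(N, N) = 1` -/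
lemma gbinom_nat_zero (m N : ℕ) (h : m < N) : gbinom (m : ℂ) N = 0 := by
  unfold gbinom
  rw [prod_eq_zero (mem_range.mpr h) (by simp), zero_div]

lemma gbinom_nat_choose (m N : ℕ) : gbinom (m : ℂ) N = (m.choose N : ℂ) := by
  induction m generalizing N with
  | zero =>
    cases N with
    | zero => simp [gbinom]
    | succ N =>
      rw [gbinom_nat_zero 0 (N + 1) (by omega)]
      simp
  | succ m ih =>
    cases N with
    | zero => simp [gbinom]
    | succ N =>
      have := gbinom_pascal (m : ℂ) N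
      have e : ((m + 1 : ℕ) : ℂ) = (m : ℂ) + 1 := by push_cast; ring
      rw [e, this, ih, ih, Nat.choose_succ_succ']
      push_cast
      ring

lemma bq_eval_nat (M N j : ℕ) (hj : j ≤ M) :
    (bq M N).eval (j : ℂ) = ((M - j).choose N : ℂ) := by
  rw [bq_eval, ← gbinom_nat_choose]
  congr 1
  rw [Nat.cast_sub hj]

/-- the second interpolation polynomial -/
def A1 (N : ℕ) : ℂ[X] := bq (N + 1) N - C ((N : ℂ) + 1) * bq N N

lemma A1_natDegree (N : ℕ) : (A1 N).natDegree ≤ N := by
  unfold A1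
  refine (natDegree_sub_le _ _).trans ?_
  refine max_le (bq_natDegree _ _) ?_
  exact (natDegree_C_mul_le _ _).trans (bq_natDegree _ _)

lemma A0_zero (N : ℕ) : (bq N N).eval 0 = 1 := by
  have := bq_eval_nat N N 0 (by omega)
  simpa using this

lemma A0_pos (N j : ℕ) (h1 : 1 ≤ j) (h2 : j ≤ N) : (bq N N).eval (j : ℂ) = 0 := by
  rw [bq_eval_nat N N j h2, Nat.choose_eq_zero_of_lt (by omega)]
  simp

lemma A1_zero (N : ℕ) : (A1 N).eval 0 = 0 := by
  have h := bq_eval_nat (N + 1) N 0 (by omega)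
  have h' : (bq (N + 1) N).eval 0 = (N : ℂ) + 1 := by
    simpa using h
  unfold A1
  rw [eval_sub, eval_mul, eval_C, h', A0_zero]
  ring

lemma A1_one (N : ℕ) (hN : 1 ≤ N) : (A1 N).eval 1 = 1 := by
  have h := bq_eval_nat (N + 1) N 1 (by omega)
  have h' : (bq (N + 1) N).eval 1 = 1 := by
    simpa using h
  have h0 := A0_pos N 1 le_rfl hN
  unfold A1
  rw [eval_sub, eval_mul, eval_C, h']
  rw [Nat.cast_one] at h0
  rw [h0]
  ring

lemma A1_big (N j : ℕ) (h1 : 2 ≤ j) (h2 : j ≤ N) : (A1 N).eval (j : ℂ) = 0 := by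
  unfold A1
  rw [eval_sub, eval_mul, eval_C, A0_pos N j (by omega) h2, bq_eval_nat (N + 1) N j (by omega),
    Nat.choose_eq_zero_of_lt (by omega)]
  simp

/-- the reflected polynomial -/
def rfl' (a : ℕ) (q : ℂ[X]) : ℂ[X] := q.comp (C (a : ℂ) - X)

lemma rfl'_eval (a : ℕ) (q : ℂ[X]) (v : ℂ) : (rfl' a q).eval v = q.eval ((a : ℂ) - v) := by
  unfold rfl'
  rw [eval_comp, eval_sub, eval_C, eval_X]

lemma rfl'_natDegree (a : ℕ) (q : ℂ[X]) : (rfl' a q).natDegree ≤ q.natDegree := by
  unfold rfl'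
  refine natDegree_comp_le.trans ?_
  have : (C (a : ℂ) - X : ℂ[X]).natDegree ≤ 1 := by
    refine (natDegree_sub_le _ _).trans (max_le ?_ ?_)
    · rw [natDegree_C]; exact Nat.zero_le _
    · rw [natDegree_X]
  calc q.natDegree * (C (a : ℂ) - X : ℂ[X]).natDegree ≤ q.natDegree * 1 :=
        Nat.mul_le_mul_left _ this
    _ = q.natDegree := mul_one _

section

variable {c : ℕ} (x : Fin c → ℂ) (a N : ℕ)

lemma L_A0 (h0 : rrPoly N x 0 = 1) : Lf x (fun v => (bq N N).eval v) = 1 := by
  rw [← h0]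
  unfold Lf rrPoly
  apply sum_congr rfl
  intro S _
  show (-1 : ℂ) ^ S.card * (bq N N).eval (∑ i ∈ S, x i) = _
  rw [bq_eval]
  congr 2
  ring

lemma L_A1 (h0 : rrPoly N x 0 = 1) (h1 : rrPoly N x 1 = N + 1) :
    Lf x (fun v => (A1 N).eval v) = 0 := by
  have e : (fun v => (A1 N).eval v) = fun v =>
      (bq (N + 1) N).eval v + (-((N : ℂ) + 1)) * (bq N N).eval v := by
    funext v
    unfold A1
    rw [eval_sub, eval_mul, eval_C]
    ring
  have e2 : Lf x (fun v => (bq (N + 1) N).eval v) = rrPoly N x 1 := by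
    unfold Lf rrPoly
    apply sum_congr rfl
    intro S _
    show (-1 : ℂ) ^ S.card * (bq (N + 1) N).eval (∑ i ∈ S, x i) = _
    rw [bq_eval]
    congr 2
    push_cast
    ring
  rw [e, Lf_add, Lf_smul, L_A0 x N h0, e2, h1]
  ring

/-- a polynomial of degree `≤ N` which vanishes at `2, ..., a - 2` is evaluated by its values at
`0` and at `a` -/
lemma L_mid (ha : ∑ i, x i = a) (ha3 : 3 ≤ a) (haN : a ≤ N)
    (h : ∀ k : ℕ, 1 ≤ k → a + k ≤ N → rrPoly N x (-(k : ℂ)) = 0)
    (h0 : rrPoly N x 0 = 1) (h1 : rrPoly N x 1 = N + 1) (q : ℂ[X]) (hq : q.natDegree ≤ N)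
    (hv : ∀ j : ℕ, 2 ≤ j → j + 2 ≤ a → q.eval (j : ℂ) = 0) :
    Lf x (fun v => q.eval v) = q.eval 0 + (-1) ^ c * q.eval (a : ℂ) := by
  set r : ℂ[X] := q - C (q.eval 0) * bq N N - C (q.eval 1) * A1 N
    - C (q.eval ((a - 1 : ℕ) : ℂ)) * rfl' a (A1 N) - C (q.eval (a : ℂ)) * rfl' a (bq N N) with hr
  have hrdeg : r.natDegree ≤ N := by
    rw [hr]
    refine (natDegree_sub_le _ _).trans (max_le ?_ ?_)
    · refine (natDegree_sub_le _ _).trans (max_le ?_ ?_)
      · refine (natDegree_sub_le _ _).trans (max_le ?_ ?_)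
        · refine (natDegree_sub_le _ _).trans (max_le hq ?_)
          exact (natDegree_C_mul_le _ _).trans (bq_natDegree _ _)
        · exact (natDegree_C_mul_le _ _).trans (A1_natDegree _)
      · exact (natDegree_C_mul_le _ _).trans ((rfl'_natDegree _ _).trans (A1_natDegree _))
    · exact (natDegree_C_mul_le _ _).trans ((rfl'_natDegree _ _).trans (bq_natDegree _ _))
  have hreval : ∀ v : ℂ, r.eval v = q.eval v - q.eval 0 * (bq N N).eval v
      - q.eval 1 * (A1 N).eval v - q.eval ((a - 1 : ℕ) : ℂ) * (A1 N).eval ((a : ℂ) - v)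
      - q.eval (a : ℂ) * (bq N N).eval ((a : ℂ) - v) := by
    intro v
    rw [hr]
    simp only [eval_sub, eval_mul, eval_C, rfl'_eval]
  have hcast : ∀ j : ℕ, j ≤ a → ((a : ℂ) - (j : ℂ)) = ((a - j : ℕ) : ℂ) := by
    intro j hj
    rw [Nat.cast_sub hj]
  have hrv : ∀ j : ℕ, j ≤ a → r.eval (j : ℂ) = 0 := by
    intro j hj
    rw [hreval, hcast j hj]
    rcases Nat.lt_or_ge j 1 with h | h
    · obtain rfl : j = 0 := by omega
      rw [Nat.cast_zero, Nat.sub_zero, A0_zero, A1_zero, A1_big N a (by omega) haN,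
        A0_pos N a (by omega) haN]
      ring
    rcases Nat.lt_or_ge j 2 with h' | h'
    · obtain rfl : j = 1 := by omega
      rw [A0_pos N 1 (by omega) (by omega), A1_big N (a - 1) (by omega) (by omega),
        A0_pos N (a - 1) (by omega) (by omega), Nat.cast_one, A1_one N (by omega)]
      ring
    rcases Nat.lt_or_ge a (j + 2) with h'' | h''
    · rcases Nat.lt_or_ge j a with h3 | h3
      · obtain rfl : j = a - 1 := by omega
        have e : a - (a - 1) = 1 := by omega
        rw [e, A0_pos N (a - 1) (by omega) (by omega), A1_big N (a - 1) (by omega) (by omega),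
          A0_pos N 1 (by omega) (by omega), Nat.cast_one, A1_one N (by omega)]
        ring
      · obtain rfl : j = a := by omega
        rw [Nat.sub_self, Nat.cast_zero, A0_pos N j (by omega) (by omega),
          A1_big N j (by omega) (by omega), A1_zero, A0_zero]
        ring
    · rw [hv j h' h'', A0_pos N j (by omega) (by omega), A1_big N j (by omega) (by omega),
        A1_big N (a - j) (by omega) (by omega), A0_pos N (a - j) (by omega) (by omega)]
      ring
  have hL := L_poly x a N h (r.natDegree + 1) r (by omega) hrdeg hrv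
  have e : (fun v => r.eval v) = fun v => ((((q.eval v + (-(q.eval 0)) * (bq N N).eval v)
      + (-(q.eval 1)) * (A1 N).eval v) + (-(q.eval ((a - 1 : ℕ) : ℂ))) * (A1 N).eval ((a : ℂ) - v))
      + (-(q.eval (a : ℂ))) * (bq N N).eval ((a : ℂ) - v)) := by
    funext v
    rw [hreval]
    ring
  rw [e] at hL
  rw [Lf_add, Lf_add, Lf_add, Lf_add, Lf_smul, Lf_smul, Lf_smul x _ (fun v => (A1 N).eval ((a : ℂ) - v)),
    Lf_smul x _ (fun v => (bq N N).eval ((a : ℂ) - v)),
    Lf_reflect x (a : ℂ) ha (fun v => (A1 N).eval v),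
    Lf_reflect x (a : ℂ) ha (fun v => (bq N N).eval v), L_A0 x N h0, L_A1 x N h0 h1] at hL
  linear_combination hL

end

end Pool.Agent.Lib.MP_776403_ag.NS
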