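import Pool.Agent.Lib.MP_776403_ag.NS.B

noncomputable section

namespace Pool.Agent.Lib.MP_776403_ag.NS

open Finset Polynomial

/-- the proper nonempty subsets -/
def Pr (c : ℕ) : Finset (Finset (Fin c)) := (univ.erase ∅).erase univ

lemma mem_Pr {c : ℕ} {S : Finset (Fin c)} : S ∈ Pr c ↔ S ≠ univ ∧ S ≠ ∅ := by
  unfold Pr
  simp

lemma card_Pr {c : ℕ} (hc : 1 ≤ c) : (Pr c).card = 2 ^ c - 2 := by
  have hne : (univ : Finset (Fin c)) ≠ ∅ := by
    have : Nonempty (Fin c) := ⟨⟨0, hc⟩⟩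
    exact univ_nonempty.ne_empty
  unfold Pr
  rw [card_erase_of_mem, card_erase_of_mem (mem_univ _), card_univ, Fintype.card_finset,
    Fintype.card_fin]
  · omega
  · rw [mem_erase]
    exact ⟨hne, mem_univ _⟩

/-- splitting off the empty set and the whole set -/
lemma Lf_split {c : ℕ} (hc : 1 ≤ c) (x : Fin c → ℂ) (a : ℕ) (ha : ∑ i, x i = a) (f : ℂ → ℂ) :
    Lf x f = f 0 + (-1) ^ c * f (a : ℂ) + ∑ S ∈ Pr c, (-1 : ℂ) ^ S.card * f (∑ i ∈ S, x i) := by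
  have hne : (univ : Finset (Fin c)) ≠ ∅ := by
    have : Nonempty (Fin c) := ⟨⟨0, hc⟩⟩
    exact univ_nonempty.ne_empty
  unfold Lf Pr
  rw [← add_sum_erase univ _ (mem_univ (∅ : Finset (Fin c)))]
  rw [← add_sum_erase (univ.erase ∅) _ (mem_erase.mpr ⟨hne, mem_univ (univ : Finset (Fin c))⟩)]
  rw [card_empty, sum_empty, card_univ, Fintype.card_fin, ha]
  ring

/-- the signed number of proper nonempty subsets with sum `v` -/
def mult {c : ℕ} (x : Fin c → ℂ) (v : ℂ) : ℂ :=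
  ∑ S ∈ (Pr c).filter (fun S => ∑ i ∈ S, x i = v), (-1 : ℂ) ^ S.card

section

variable {c : ℕ} (x : Fin c → ℂ) (a N : ℕ)

theorem mult_zero (hc : 1 ≤ c) (ha : ∑ i, x i = a) (ha3 : 3 ≤ a) (haN : a ≤ N)
    (hN : a + 2 ^ c ≤ N + 6)
    (h : ∀ k : ℕ, 1 ≤ k → a + k ≤ N → rrPoly N x (-(k : ℂ)) = 0)
    (h0 : rrPoly N x 0 = 1) (h1 : rrPoly N x 1 = N + 1) (v : ℂ)
    (hv : ∀ j : ℕ, 2 ≤ j → j + 2 ≤ a → v ≠ (j : ℂ)) : mult x v = 0 := by
  classical
  set V : Finset ℂ := (Pr c).image (fun S => ∑ i ∈ S, x i) with hV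
  by_cases hvV : v ∈ V
  swap
  · unfold mult
    rw [filter_eq_empty_iff.mpr, sum_empty]
    intro S hS he
    exact hvV (mem_image.mpr ⟨S, hS, he⟩)
  have hVcard : V.card ≤ 2 ^ c - 2 := by
    rw [← card_Pr hc]
    exact card_image_le
  have hVpos : 1 ≤ V.card := card_pos.mpr ⟨v, hvV⟩
  set q : ℂ[X] := (∏ j ∈ Icc 2 (a - 2), (X - C ((j : ℕ) : ℂ))) * ∏ w ∈ V.erase v, (X - C w) with hq
  have hqdeg : q.natDegree ≤ N := by
    have e1 : (∏ j ∈ Icc 2 (a - 2), (X - C ((j : ℕ) : ℂ)) : ℂ[X]).natDegree = a - 3 := by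
      rw [natDegree_prod_of_monic _ _ (fun j _ => monic_X_sub_C _)]
      simp only [natDegree_X_sub_C, sum_const, smul_eq_mul, mul_one, Nat.card_Icc]
      omega
    have e2 : (∏ w ∈ V.erase v, (X - C w) : ℂ[X]).natDegree = V.card - 1 := by
      rw [natDegree_prod_of_monic _ _ (fun j _ => monic_X_sub_C _)]
      simp only [natDegree_X_sub_C, sum_const, smul_eq_mul, mul_one]
      rw [card_erase_of_mem hvV]
    calc q.natDegree ≤ _ := natDegree_mul_le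
      _ = (a - 3) + (V.card - 1) := by rw [e1, e2]
      _ ≤ N := by omega
  have hqv : ∀ j : ℕ, 2 ≤ j → j + 2 ≤ a → q.eval (j : ℂ) = 0 := by
    intro j h2 h3
    rw [hq, eval_mul, eval_prod]
    rw [prod_eq_zero (mem_Icc.mpr ⟨h2, by omega⟩ : j ∈ Icc 2 (a - 2))]
    · simp
    · simp
  have hL := L_mid x a N ha ha3 haN h h0 h1 q hqdeg hqv
  rw [Lf_split hc x a ha] at hL
  have hS : ∑ S ∈ Pr c, (-1 : ℂ) ^ S.card * q.eval (∑ i ∈ S, x i) = 0 := by
    linear_combination hL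
  have hS2 : ∑ S ∈ Pr c, (-1 : ℂ) ^ S.card * q.eval (∑ i ∈ S, x i) = mult x v * q.eval v := by
    unfold mult
    rw [sum_mul, sum_filter]
    apply sum_congr rfl
    intro S hSP
    split_ifs with hs
    · rw [hs]
    · have hmem : ∑ i ∈ S, x i ∈ V.erase v :=
        mem_erase.mpr ⟨hs, mem_image.mpr ⟨S, hSP, rfl⟩⟩
      have : q.eval (∑ i ∈ S, x i) = 0 := by
        rw [hq, eval_mul, eval_prod (V.erase v)]
        rw [prod_eq_zero hmem]
        · simp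
        · rw [eval_sub, eval_X, eval_C, sub_self]
      rw [this, mul_zero]
  rw [hS2] at hS
  rcases mul_eq_zero.mp hS with h3 | h3
  · exact h3
  · exfalso
    rw [hq, eval_mul, eval_prod, eval_prod] at h3
    rcases mul_eq_zero.mp h3 with h4 | h4
    · obtain ⟨j, hj, hj'⟩ := prod_eq_zero_iff.mp h4
      have hj2 := mem_Icc.mp hj
      rw [eval_sub, eval_X, eval_C] at hj'
      exact hv j hj2.1 (by omega) (sub_eq_zero.mp hj')
    · obtain ⟨w, hw, hw'⟩ := prod_eq_zero_iff.mp h4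
      rw [eval_sub, eval_X, eval_C] at hw'
      exact (mem_erase.mp hw).1 (sub_eq_zero.mp hw').symm

/-- a sum over the proper nonempty subsets of a function of the subset sum which vanishes at
`2, ..., a - 2` is zero -/
theorem sum_Pr_zero (hc : 1 ≤ c) (ha : ∑ i, x i = a) (ha3 : 3 ≤ a) (haN : a ≤ N)
    (hN : a + 2 ^ c ≤ N + 6)
    (h : ∀ k : ℕ, 1 ≤ k → a + k ≤ N → rrPoly N x (-(k : ℂ)) = 0)
    (h0 : rrPoly N x 0 = 1) (h1 : rrPoly N x 1 = N + 1) (g : ℂ → ℂ)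
    (hg : ∀ j : ℕ, g (j : ℂ) = 0) :
    ∑ S ∈ Pr c, (-1 : ℂ) ^ S.card * g (∑ i ∈ S, x i) = 0 := by
  classical
  rw [← sum_fiberwise_of_maps_to (s := Pr c) (t := (Pr c).image (fun S => ∑ i ∈ S, x i))
    (g := fun S => ∑ i ∈ S, x i) (fun S hS => mem_image_of_mem _ hS)]
  apply sum_eq_zero
  intro v _
  have e : ∑ S ∈ (Pr c).filter (fun S => ∑ i ∈ S, x i = v), (-1 : ℂ) ^ S.card * g (∑ i ∈ S, x i)
      = mult x v * g v := by
    unfold mult
    rw [sum_mul]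
    apply sum_congr rfl
    intro S hS
    rw [(mem_filter.mp hS).2]
  rw [e]
  by_cases hv : ∀ j : ℕ, 2 ≤ j → j + 2 ≤ a → v ≠ (j : ℂ)
  · rw [mult_zero x a N hc ha ha3 haN hN h h0 h1 v hv, zero_mul]
  · push Not at hv
    obtain ⟨j, _, _, rfl⟩ := hv
    rw [hg, mul_zero]

end

end Pool.Agent.Lib.MP_776403_ag.NS
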