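import Pool.Agent.Lib.MP_776403_ag.NS.C

noncomputable section

namespace Pool.Agent.Lib.MP_776403_ag.NS

open Finset PowerSeries

/-- the power series `e^{x t}` -/
def ex (x : ℂ) : ℂ⟦X⟧ := rescale x (exp ℂ)

lemma ex_coeff (x : ℂ) (n : ℕ) : coeff n (ex x) = x ^ n / (n.factorial : ℂ) := by
  unfold ex
  rw [coeff_rescale, coeff_exp]
  simp [div_eq_mul_inv]

lemma ex_add (x y : ℂ) : ex x * ex y = ex (x + y) := exp_mul_exp_eq_exp_add x y

lemma ex_zero : ex 0 = 1 := by
  ext n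
  rw [ex_coeff, coeff_one]
  split_ifs with h
  · subst h; simp
  · rw [zero_pow h, zero_div]

lemma ex_sum {ι : Type*} (S : Finset ι) (x : ι → ℂ) : ∏ i ∈ S, ex (x i) = ex (∑ i ∈ S, x i) := by
  classical
  induction S using Finset.induction_on with
  | empty => simp [ex_zero]
  | insert i S hi ih => rw [prod_insert hi, sum_insert hi, ih, ex_add]

/-- the expansion of `∏ (1 - t_i e^{x_i t})` -/
lemma prod_expand {c : ℕ} (x t : Fin c → ℂ) :
    ∏ i, (1 + -(C (t i) * ex (x i))) = ∑ S : Finset (Fin c),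
      C ((-1 : ℂ) ^ S.card * ∏ i ∈ S, t i) * ex (∑ i ∈ S, x i) := by
  rw [prod_one_add, powerset_univ]
  apply sum_congr rfl
  intro S _
  have e : ∀ i, -(C (t i) * ex (x i)) = C (-1) * (C (t i) * ex (x i)) := by
    intro i
    rw [map_neg, map_one]
    ring
  simp_rw [e]
  rw [prod_mul_distrib, prod_mul_distrib, ex_sum, prod_const, map_mul, map_pow, map_prod]
  ring

lemma order_fac (x : ℂ) (hx : x ≠ 0) : (1 + -(C (1 : ℂ) * ex x)).order = 1 := by
  have h0 : coeff 0 (1 + -(C (1 : ℂ) * ex x)) = 0 := by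
    rw [map_add, map_neg, coeff_C_mul, ex_coeff]
    simp
  have h1 : coeff 1 (1 + -(C (1 : ℂ) * ex x)) ≠ 0 := by
    rw [map_add, map_neg, coeff_C_mul, ex_coeff, coeff_one]
    simp [hx]
  apply le_antisymm
  · exact_mod_cast order_le 1 h1
  · have := nat_le_order (1 + -(C (1 : ℂ) * ex x)) 1 (fun i hi => by
      obtain rfl : i = 0 := by omega
      exact h0)
    exact_mod_cast this

lemma order_le_one (x t : ℂ) (hx : x ≠ 0) : (1 + -(C t * ex x)).order ≤ 1 := by
  by_cases ht : t = 0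
  · subst ht
    have : (1 + -(C (0 : ℂ) * ex x)) = 1 := by simp
    rw [this, PowerSeries.order_one]
    exact zero_le_one
  have h1 : coeff 1 (1 + -(C t * ex x)) ≠ 0 := by
    rw [map_add, map_neg, coeff_C_mul, ex_coeff, coeff_one]
    simp [hx, ht]
  exact_mod_cast order_le 1 h1

lemma order_fac_zero (x t : ℂ) (ht : t ≠ 1) : (1 + -(C t * ex x)).order = 0 := by
  have h0 : coeff 0 (1 + -(C t * ex x)) ≠ 0 := by
    rw [map_add, map_neg, coeff_C_mul, ex_coeff, coeff_one]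
    simp only [if_true, pow_zero, Nat.factorial_zero, Nat.cast_one, div_one, mul_one]
    intro h
    apply ht
    linear_combination -h
  have := order_le 0 h0
  exact le_antisymm (by exact_mod_cast this) zero_le

/-- the character `v ↦ exp (2 π i v)` -/
def chi (v : ℂ) : ℂ := Complex.exp (v * (2 * Real.pi * Complex.I))

lemma chi_nat (j : ℕ) : chi (j : ℂ) = 1 := by
  unfold chi
  rw [Complex.exp_eq_one_iff]
  exact ⟨j, by push_cast; ring⟩

lemma chi_sum {ι : Type*} (S : Finset ι) (x : ι → ℂ) : ∏ i ∈ S, chi (x i) = chi (∑ i ∈ S, x i) := by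
  unfold chi
  rw [← Complex.exp_sum, sum_mul]

theorem all_chi {c : ℕ} (hc : 1 ≤ c) (x : Fin c → ℂ) (a : ℕ) (ha : ∑ i, x i = a)
    (hx : ∀ i, x i ≠ 0)
    (hP : ∀ g : ℂ → ℂ, (∀ j : ℕ, g (j : ℂ) = 0) →
      ∑ S ∈ Pr c, (-1 : ℂ) ^ S.card * g (∑ i ∈ S, x i) = 0) (i0 : Fin c) : chi (x i0) = 1 := by
  classical
  by_contra hne
  have hAB : ∏ i, (1 + -(C (1 : ℂ) * ex (x i))) = ∏ i, (1 + -(C (chi (x i)) * ex (x i))) := by
    rw [prod_expand x (fun _ => 1), prod_expand x (fun i => chi (x i))]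
    ext n
    rw [map_sum, map_sum, ← sub_eq_zero, ← sum_sub_distrib]
    obtain ⟨g, hgd⟩ : ∃ g : ℂ → ℂ, ∀ v, g v = (1 - chi v) * (v ^ n / (n.factorial : ℂ)) :=
      ⟨_, fun _ => rfl⟩
    have h1 : ∀ S : Finset (Fin c),
        coeff n (C ((-1 : ℂ) ^ S.card * ∏ _i ∈ S, 1) * ex (∑ i ∈ S, x i))
        - coeff n (C ((-1 : ℂ) ^ S.card * ∏ i ∈ S, chi (x i)) * ex (∑ i ∈ S, x i))
        = (-1 : ℂ) ^ S.card * g (∑ i ∈ S, x i) := by
      intro S
      rw [coeff_C_mul, coeff_C_mul, ex_coeff, chi_sum, prod_const_one, hgd]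
      ring
    rw [sum_congr rfl (fun S _ => h1 S)]
    have h2 := Lf_split hc x a ha g
    have hg : ∀ j : ℕ, g (j : ℂ) = 0 := by
      intro j
      rw [hgd, chi_nat, sub_self, zero_mul]
    have h3 := hg 0
    rw [Nat.cast_zero] at h3
    rw [hP g hg, h3, hg a] at h2
    unfold Lf at h2
    rw [h2]
    ring
  have hord : (∏ i, (1 + -(C (1 : ℂ) * ex (x i)))).order = (c : ℕ∞) := by
    rw [order_prod, sum_congr rfl (fun i _ => order_fac (x i) (hx i))]
    simp
  have hord2 : (∏ i, (1 + -(C (chi (x i)) * ex (x i)))).order ≤ ((c - 1 : ℕ) : ℕ∞) := by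
    rw [order_prod, ← add_sum_erase univ _ (mem_univ i0), order_fac_zero _ _ hne, zero_add]
    calc ∑ i ∈ univ.erase i0, (1 + -(C (chi (x i)) * ex (x i))).order
        ≤ ∑ i ∈ univ.erase i0, (1 : ℕ∞) := sum_le_sum (fun i _ => order_le_one _ _ (hx i))
      _ = ((c - 1 : ℕ) : ℕ∞) := by
        rw [sum_const, card_erase_of_mem (mem_univ _), card_univ, Fintype.card_fin]
        simp
  rw [← hAB, hord] at hord2
  have : c ≤ c - 1 := by exact_mod_cast hord2
  omega

end Pool.Agent.Lib.MP_776403_ag.NS
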