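import Mathlib

/-!
# Riemann-Roch polynomial of a manifold with given normal Chern roots: definitions
-/

noncomputable section

namespace Pool.Agent.Lib.MP_776403_ag.NS

open Finset

/-- The generalized binomial coefficient `binom(y, n) = y (y - 1) ... (y - n + 1) / n!` for a complex
number `y`. -/
def gbinom (y : ℂ) (n : ℕ) : ℂ := (∏ j ∈ range n, (y - j)) / (n.factorial : ℂ)

/-- The Riemann-Roch (Hilbert) polynomial of a projective manifold `X` of codimension `c` in `ℙ^N`
whose normal bundle has the Chern roots `x_1 H, ..., x_c H` (`H` the hyperplane class):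
`P(k) = ∑_{S ⊆ {1, ..., c}} (-1)^|S| binom(N + k - ∑_{i ∈ S} x_i, N)`. -/
def rrPoly (N : ℕ) {c : ℕ} (x : Fin c → ℂ) (k : ℂ) : ℂ :=
  ∑ S : Finset (Fin c), (-1 : ℂ) ^ S.card * gbinom (N + k - ∑ i ∈ S, x i) N

end Pool.Agent.Lib.MP_776403_ag.NS
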