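import Pool.Agent.Lib.MP_776403_ag.NS.D

noncomputable section

namespace Pool.Agent.Lib.MP_776403_ag.NS

open Finset

theorem main (c N a : ℕ) (x : Fin c → ℂ) (hx : ∀ i, x i ≠ 0) (ha : ∑ i, x i = a)
    (ha3 : 3 ≤ a) (haN : a ≤ N) (hN : a + 2 ^ c ≤ N + 6)
    (hz : ∀ k : ℕ, 1 ≤ k → a + k ≤ N → rrPoly N x (-(k : ℂ)) = 0)
    (h0 : rrPoly N x 0 = 1) (h1 : rrPoly N x 1 = N + 1) :
    ∀ i, ∃ m : ℕ, 2 ≤ m ∧ x i = m := by
  classical
  intro i1
  have hc : 1 ≤ c := by
    rcases Nat.eq_zero_or_pos c with h | h
    · subst h; exact i1.elim0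
    · exact h
  have hchi := all_chi hc x a ha hx (fun g hg => sum_Pr_zero x a N hc ha ha3 haN hN hz h0 h1 g hg)
  have hint : ∀ i, ∃ m : ℤ, x i = m := by
    intro i
    have h := hchi i
    unfold chi at h
    rw [Complex.exp_eq_one_iff] at h
    obtain ⟨n, hn⟩ := h
    exact ⟨n, mul_right_cancel₀ Complex.two_pi_I_ne_zero hn⟩
  choose m hm using hint
  have hm0 : ∀ i, m i ≠ 0 := by
    intro i h
    apply hx i
    rw [hm i, h, Int.cast_zero]
  have hsum : ∀ S : Finset (Fin c), ∑ i ∈ S, x i = ((∑ i ∈ S, m i : ℤ) : ℂ) := by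
    intro S
    rw [Int.cast_sum]
    exact sum_congr rfl (fun i _ => hm i)
  have hma : ∑ i, m i = (a : ℤ) := by
    have := hsum univ
    rw [ha] at this
    exact_mod_cast this.symm
  have hmult := mult_zero x a N hc ha ha3 haN hN hz h0 h1
  -- all `m i` are positive
  have hpos : ∀ i, 0 < m i := by
    by_contra hcon
    push Not at hcon
    obtain ⟨i0, hi0⟩ := hcon
    have hi0' : m i0 < 0 := lt_of_le_of_ne hi0 (hm0 i0)
    set T : Finset (Fin c) := univ.filter (fun i => m i < 0) with hT
    have hTmem : i0 ∈ T := by rw [hT, mem_filter]; exact ⟨mem_univ _, hi0'⟩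
    have hTneg : ∑ i ∈ T, m i < 0 :=
      sum_neg (fun i hi => (mem_filter.mp hi).2) ⟨i0, hTmem⟩
    have hTPr : T ∈ Pr c := by
      rw [mem_Pr]
      refine ⟨?_, ?_⟩
      · intro h
        rw [h, hma] at hTneg
        omega
      · intro h
        rw [h] at hTmem
        simp at hTmem
    have hv := hmult (((∑ i ∈ T, m i : ℤ)) : ℂ) (by
      intro j _ _ he
      have : (∑ i ∈ T, m i) = (j : ℤ) := by exact_mod_cast he
      omega)
    have huniq : (Pr c).filter (fun S => ∑ i ∈ S, x i = (((∑ i ∈ T, m i : ℤ)) : ℂ)) = {T} := by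
      ext S
      rw [mem_filter, mem_singleton]
      constructor
      · rintro ⟨_, hS⟩
        rw [hsum] at hS
        have hS' : ∑ i ∈ S, m i = ∑ i ∈ T, m i := by exact_mod_cast hS
        have e1 : ∑ i ∈ S, m i = ∑ i, if i ∈ S then m i else 0 := by
          rw [← sum_filter]; congr 1; ext i; simp
        have e2 : ∑ i ∈ T, m i = ∑ i, if i ∈ T then m i else 0 := by
          rw [← sum_filter]; congr 1; ext i; simp
        have e3 : ∑ i, ((if i ∈ S then m i else 0) - (if i ∈ T then m i else 0)) = 0 := by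
          rw [sum_sub_distrib, ← e1, ← e2, hS', sub_self]
        have hnn : ∀ i ∈ (univ : Finset (Fin c)),
            0 ≤ (if i ∈ S then m i else 0) - (if i ∈ T then m i else 0) := by
          intro i _
          by_cases hiT : i ∈ T
          · have := (mem_filter.mp hiT).2
            by_cases hiS : i ∈ S
            · simp [hiT, hiS]
            · simp only [hiT, hiS, if_true, if_false]
              omega
          · have h2 : ¬ m i < 0 := fun h => hiT (mem_filter.mpr ⟨mem_univ _, h⟩)
            by_cases hiS : i ∈ S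
            · simp only [hiT, hiS, if_true, if_false]
              omega
            · simp [hiT, hiS]
        have hall := (sum_eq_zero_iff_of_nonneg hnn).mp e3
        ext i
        have hi := hall i (mem_univ _)
        have hi0 := hm0 i
        by_cases hiT : i ∈ T
        · by_cases hiS : i ∈ S
          · simp [hiT, hiS]
          · simp only [hiT, hiS, if_true, if_false] at hi
            omega
        · by_cases hiS : i ∈ S
          · simp only [hiT, hiS, if_true, if_false] at hi
            omega
          · simp [hiT, hiS]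
      · rintro rfl
        exact ⟨hTPr, hsum _⟩
    unfold mult at hv
    rw [huniq, sum_singleton] at hv
    exact pow_ne_zero _ (by norm_num) hv
  -- none of them is `1`
  have hne1 : ∀ i, m i ≠ 1 := by
    intro i0 hi0
    have hv := hmult 1 (by
      intro j hj _ he
      have : (1 : ℕ) = j := by exact_mod_cast he
      omega)
    unfold mult at hv
    have hcard : ∀ S ∈ (Pr c).filter (fun S => ∑ i ∈ S, x i = 1), (-1 : ℂ) ^ S.card = -1 := by
      intro S hS
      obtain ⟨hSP, hSs⟩ := mem_filter.mp hS
      rw [hsum] at hSs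
      have hSs' : ∑ i ∈ S, m i = 1 := by exact_mod_cast hSs
      have hle : (S.card : ℤ) ≤ ∑ i ∈ S, m i := by
        have : ∑ i ∈ S, (1 : ℤ) ≤ ∑ i ∈ S, m i :=
          sum_le_sum (fun i _ => by have := hpos i; omega)
        simpa using this
      have hne : S.Nonempty := nonempty_iff_ne_empty.mpr (mem_Pr.mp hSP).2
      have h1' : 1 ≤ S.card := card_pos.mpr hne
      have : S.card = 1 := by omega
      rw [this, pow_one]
    rw [sum_congr rfl hcard, sum_const, nsmul_eq_mul, mul_neg, mul_one, neg_eq_zero] at hv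
    have hcard0 : ((Pr c).filter (fun S => ∑ i ∈ S, x i = 1)).card = 0 := by exact_mod_cast hv
    rw [card_eq_zero] at hcard0
    have hmem : ({i0} : Finset (Fin c)) ∈ (Pr c).filter (fun S => ∑ i ∈ S, x i = 1) := by
      rw [mem_filter, mem_Pr]
      refine ⟨⟨?_, singleton_ne_empty _⟩, ?_⟩
      · intro h
        rw [← h, sum_singleton, hi0] at hma
        omega
      · rw [sum_singleton, hm i0, hi0, Int.cast_one]
    rw [hcard0] at hmem
    simp at hmem
  refine ⟨(m i1).toNat, ?_, ?_⟩
  · have h2 := hpos i1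
    have h3 := hne1 i1
    omega
  · rw [hm i1]
    have h2 := hpos i1
    have : ((m i1).toNat : ℤ) = m i1 := Int.toNat_of_nonneg (by omega)
    exact_mod_cast congrArg (fun z : ℤ => (z : ℂ)) this.symm

end Pool.Agent.Lib.MP_776403_ag.NS
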