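import Pool.Agent.Lib.MP_776403_ag.NS.E

noncomputable section

namespace Pool.Agent.Lib.MP_776403_ag.NS

open Finset Polynomial

/-- double counting: the sum over the `(j + 1)`-subsets of the sums -/
lemma double_count {c : ℕ} (w : Fin c → ℝ) (j : ℕ) :
    ∑ S ∈ powersetCard (j + 1) (univ : Finset (Fin c)), ∑ i ∈ S, w i
      = ((c - 1).choose j : ℝ) * ∑ i, w i := by
  classical
  have h1 : ∀ S : Finset (Fin c), ∑ i ∈ S, w i = ∑ i, if i ∈ S then w i else 0 := by
    intro S
    rw [← sum_filter]; congr 1; ext i; simp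
  rw [sum_congr rfl (fun S _ => h1 S), sum_comm, mul_sum]
  apply sum_congr rfl
  intro i _
  rw [← sum_filter, sum_const, nsmul_eq_mul]
  congr 2
  have h2 : (powersetCard (j + 1) (univ : Finset (Fin c))).filter (fun S => i ∈ S)
      = (powersetCard j (univ.erase i)).image (insert i) := by
    ext S
    rw [mem_filter, mem_powersetCard, mem_image]
    constructor
    · rintro ⟨⟨_, hS⟩, hi⟩
      refine ⟨S.erase i, ?_, insert_erase hi⟩
      rw [mem_powersetCard]
      refine ⟨erase_subset_erase _ (subset_univ _), ?_⟩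
      rw [card_erase_of_mem hi, hS]; rfl
    · rintro ⟨T, hT, rfl⟩
      rw [mem_powersetCard] at hT
      have hiT : i ∉ T := fun h => by
        have := hT.1 h
        simp at this
      refine ⟨⟨subset_univ _, ?_⟩, mem_insert_self _ _⟩
      rw [card_insert_of_notMem hiT, hT.2]
  rw [h2, card_image_of_injOn]
  · rw [card_powersetCard, card_erase_of_mem (mem_univ _), card_univ, Fintype.card_fin]
  · intro T hT T' hT' he
    rw [mem_coe, mem_powersetCard] at hT hT'
    have hiT : i ∉ T := fun h => by
      have := hT.1 h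
      simp at this
    have hiT' : i ∉ T' := fun h => by
      have := hT'.1 h
      simp at this
    have := congrArg (fun U : Finset (Fin c) => U.erase i) he
    simpa [erase_insert hiT, erase_insert hiT'] using this

/-- the elementary symmetric functions of positive numbers with product `≥ 1` -/
lemma esymm_ge {c : ℕ} (y : Fin c → ℝ) (hy : ∀ i, 0 < y i) (hp : 1 ≤ ∏ i, y i) (j : ℕ) :
    (c.choose j : ℝ) ≤ ∑ S ∈ powersetCard j (univ : Finset (Fin c)), ∏ i ∈ S, y i := by
  have hlog : 0 ≤ ∑ i, Real.log (y i) := by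
    rw [← Real.log_prod (fun i _ => (hy i).ne')]
    exact Real.log_nonneg hp
  cases j with
  | zero => simp
  | succ j =>
    have hS : ∀ S : Finset (Fin c), 1 + ∑ i ∈ S, Real.log (y i) ≤ ∏ i ∈ S, y i := by
      intro S
      have hpos : 0 < ∏ i ∈ S, y i := prod_pos (fun i _ => hy i)
      have := Real.log_le_sub_one_of_pos hpos
      rw [Real.log_prod (fun i _ => (hy i).ne')] at this
      linarith
    have h1 : ∑ S ∈ powersetCard (j + 1) (univ : Finset (Fin c)), (1 + ∑ i ∈ S, Real.log (y i))
        ≤ ∑ S ∈ powersetCard (j + 1) (univ : Finset (Fin c)), ∏ i ∈ S, y i :=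
      sum_le_sum (fun S _ => hS S)
    rw [sum_add_distrib, double_count, sum_const, card_powersetCard, card_univ,
      Fintype.card_fin, nsmul_eq_mul, mul_one] at h1
    have h2 : 0 ≤ ((c - 1).choose j : ℝ) * ∑ i, Real.log (y i) :=
      mul_nonneg (Nat.cast_nonneg _) hlog
    linarith

/-- equality forces all the numbers to be equal to `1` -/
lemma esymm_gt {c : ℕ} (y : Fin c → ℝ) (hy : ∀ i, 0 < y i) (hp : 1 ≤ ∏ i, y i) (j : ℕ)
    (h1j : 1 ≤ j) (hjc : j + 1 ≤ c) (i0 : Fin c) (hi0 : y i0 ≠ 1) :
    (c.choose j : ℝ) < ∑ S ∈ powersetCard j (univ : Finset (Fin c)), ∏ i ∈ S, y i := by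
  classical
  by_contra hcon
  rw [not_lt] at hcon
  have hlog : 0 ≤ ∑ i, Real.log (y i) := by
    rw [← Real.log_prod (fun i _ => (hy i).ne')]
    exact Real.log_nonneg hp
  obtain ⟨j, rfl⟩ : ∃ j', j = j' + 1 := ⟨j - 1, by omega⟩
  -- every term is `1`
  have hone : ∀ S ∈ powersetCard (j + 1) (univ : Finset (Fin c)), ∏ i ∈ S, y i = 1 := by
    have hnn : ∀ S ∈ powersetCard (j + 1) (univ : Finset (Fin c)),
        0 ≤ ∏ i ∈ S, y i - 1 - ∑ i ∈ S, Real.log (y i) := by
      intro S _
      have hpos : 0 < ∏ i ∈ S, y i := prod_pos (fun i _ => hy i)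
      have := Real.log_le_sub_one_of_pos hpos
      rw [Real.log_prod (fun i _ => (hy i).ne')] at this
      linarith
    have hsum : ∑ S ∈ powersetCard (j + 1) (univ : Finset (Fin c)),
        (∏ i ∈ S, y i - 1 - ∑ i ∈ S, Real.log (y i)) ≤ 0 := by
      rw [sum_sub_distrib, sum_sub_distrib, double_count, sum_const, card_powersetCard, card_univ,
        Fintype.card_fin, nsmul_eq_mul, mul_one]
      have h2 : 0 ≤ ((c - 1).choose j : ℝ) * ∑ i, Real.log (y i) :=
        mul_nonneg (Nat.cast_nonneg _) hlog
      linarith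
    have hzero := (sum_eq_zero_iff_of_nonneg hnn).mp (le_antisymm hsum (sum_nonneg hnn))
    intro S hS
    by_contra hne
    have hpos : 0 < ∏ i ∈ S, y i := prod_pos (fun i _ => hy i)
    have h3 := Real.log_lt_sub_one_of_pos hpos hne
    rw [Real.log_prod (fun i _ => (hy i).ne')] at h3
    have h4 := hzero S hS
    linarith
  -- so all the numbers are equal
  have heq : ∀ i i' : Fin c, y i = y i' := by
    intro i i'
    by_cases hii : i = i'
    · rw [hii]
    have hcard : j ≤ ((univ.erase i).erase i').card := by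
      rw [card_erase_of_mem (mem_erase.mpr ⟨fun h => hii h.symm, mem_univ _⟩),
        card_erase_of_mem (mem_univ _), card_univ, Fintype.card_fin]
      omega
    obtain ⟨T, hT, hTc⟩ := exists_subset_card_eq hcard
    have hiT : i ∉ T := fun h => by
      have := hT h
      simp at this
    have hiT' : i' ∉ T := fun h => by
      have := hT h
      simp at this
    have e1 := hone (insert i T) (mem_powersetCard.mpr ⟨subset_univ _, by
      rw [card_insert_of_notMem hiT, hTc]⟩)
    have e2 := hone (insert i' T) (mem_powersetCard.mpr ⟨subset_univ _, by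
      rw [card_insert_of_notMem hiT', hTc]⟩)
    rw [prod_insert hiT] at e1
    rw [prod_insert hiT'] at e2
    have hpos : 0 < ∏ i ∈ T, y i := prod_pos (fun i _ => hy i)
    exact mul_right_cancel₀ hpos.ne' (e1.trans e2.symm)
  -- the common value is `1`
  have hcard : j + 1 ≤ (univ : Finset (Fin c)).card := by
    rw [card_univ, Fintype.card_fin]; omega
  obtain ⟨T, hT, hTc⟩ := exists_subset_card_eq hcard
  have e := hone T (mem_powersetCard.mpr ⟨hT, hTc⟩)
  rw [prod_congr rfl (fun i _ => heq i i0), prod_const, hTc] at e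
  exact hi0 ((pow_eq_one_iff_of_nonneg (hy i0).le (by omega)).mp e)

end Pool.Agent.Lib.MP_776403_ag.NS
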