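import Pool.Agent.Lib.MP_776403_ag.NS.F

noncomputable section

namespace Pool.Agent.Lib.MP_776403_ag.NS

open Finset Polynomial

/-- the elementary symmetric functions of `x - 1` are integers -/
lemma esymm_int {c : ℕ} (x : Fin c → ℝ) (f : ℤ[X])
    (hf : f.map (Int.castRingHom ℝ) = ∏ i, (X - C (x i))) (j : ℕ) (hj : j ≤ c) :
    ∃ e : ℤ, ∑ S ∈ powersetCard j (univ : Finset (Fin c)), ∏ i ∈ S, (x i - 1) = (e : ℝ) := by
  have h1 : ((C ((-1 : ℤ) ^ c) * f.comp (1 - X)).map (Int.castRingHom ℝ))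
      = ∏ i : Fin c, (X + C (x i - 1)) := by
    rw [Polynomial.map_mul, map_comp, hf, map_C, Polynomial.map_sub, Polynomial.map_one, map_X]
    rw [Polynomial.prod_comp]
    have e : ∀ i : Fin c, ((X - C (x i)).comp (1 - X) : ℝ[X]) = C (-1) * (X + C (x i - 1)) := by
      intro i
      rw [sub_comp, X_comp, C_comp, map_sub, map_neg, map_one]
      ring
    rw [prod_congr rfl (fun i _ => e i), prod_mul_distrib, prod_const, card_univ, Fintype.card_fin,
      ← mul_assoc, ← map_pow, ← map_mul]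
    have : ((Int.castRingHom ℝ) ((-1 : ℤ) ^ c)) * (-1 : ℝ) ^ c = 1 := by
      simp only [eq_intCast, Int.cast_pow, Int.cast_neg, Int.cast_one]
      rw [← mul_pow]
      norm_num
    rw [this, map_one, one_mul]
  have h2 := Finset.prod_X_add_C_coeff (univ : Finset (Fin c)) (fun i => x i - 1)
    (k := c - j) (by rw [card_univ, Fintype.card_fin]; omega)
  rw [← h1, coeff_map, card_univ, Fintype.card_fin] at h2
  have e : c - (c - j) = j := by omega
  rw [e] at h2
  exact ⟨_, h2.symm⟩

theorem mainReal (c n a d : ℕ) (x : Fin c → ℝ) (hx : ∀ i, 1 < x i) (f : ℤ[X])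
    (hf : f.map (Int.castRingHom ℝ) = ∏ i, (X - C (x i))) (ha : ∑ i, x i = a)
    (hd : ∏ i, x i = d) (hn : d + 1 ≤ n)
    (hz : ∀ k : ℕ, 1 ≤ k → a + k ≤ n + c → rrPoly (n + c) (fun i => (x i : ℂ)) (-(k : ℂ)) = 0)
    (h0 : rrPoly (n + c) (fun i => (x i : ℂ)) 0 = 1)
    (h1 : rrPoly (n + c) (fun i => (x i : ℂ)) 1 = ((n + c : ℕ) : ℂ) + 1) :
    ∀ i, ∃ m : ℕ, 2 ≤ m ∧ x i = m := by
  classical
  intro i1
  by_cases hall : ∀ i, x i - 1 = 1
  · refine ⟨2, le_rfl, ?_⟩
    have := hall i1
    push_cast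
    linarith
  push Not at hall
  obtain ⟨i0, hi0⟩ := hall
  have hc0 : 1 ≤ c := by
    rcases Nat.eq_zero_or_pos c with h | h
    · subst h; exact i1.elim0
    · exact h
  rcases Nat.lt_or_ge c 2 with hc1 | hc2
  · -- c = 1
    obtain rfl : c = 1 := by omega
    have h2 : x i1 = (a : ℝ) := by
      rw [← ha, Fin.sum_univ_one]
      congr 1
      exact Subsingleton.elim _ _
    refine ⟨a, ?_, h2⟩
    have h3 := hx i1
    rw [h2] at h3
    have : 1 < a := by exact_mod_cast h3
    omega
  have hypos : ∀ i, 0 < x i - 1 := fun i => by have := hx i; linarith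
  -- the elementary symmetric functions
  set E : ℕ → ℝ := fun j => ∑ S ∈ powersetCard j (univ : Finset (Fin c)), ∏ i ∈ S, (x i - 1) with hE
  have hEint : ∀ j, j ≤ c → ∃ e : ℤ, E j = (e : ℝ) := fun j hj => esymm_int x f hf j hj
  have hEc : E c = ∏ i, (x i - 1) := by
    simp only [hE]
    have h := powersetCard_self (univ : Finset (Fin c))
    rw [card_univ, Fintype.card_fin] at h
    rw [h, sum_singleton]
  have hp : 1 ≤ ∏ i, (x i - 1) := by
    obtain ⟨e, he⟩ := hEint c le_rfl
    have hpos : 0 < ∏ i, (x i - 1) := prod_pos (fun i _ => hypos i)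
    rw [← hEc, he] at hpos ⊢
    have : 0 < e := by exact_mod_cast hpos
    exact_mod_cast this
  have hge : ∀ j, (c.choose j : ℝ) ≤ E j := fun j => esymm_ge _ hypos hp j
  have hge1 : ∀ j, 1 ≤ j → j + 1 ≤ c → (c.choose j : ℝ) + 1 ≤ E j := by
    intro j h1j hjc
    have h2 := esymm_gt _ hypos hp j h1j hjc i0 hi0
    obtain ⟨e, he⟩ := hEint j (by omega)
    have h3 : (c.choose j : ℝ) < (e : ℝ) := by rw [← he]; exact h2
    have h4 : ((c.choose j : ℤ)) < e := by exact_mod_cast h3
    rw [he]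
    exact_mod_cast h4
  have hE1 : E 1 = (a : ℝ) - c := by
    simp only [hE]
    rw [← ha, powersetCard_one, sum_map]
    simp only [Function.Embedding.coeFn_mk, prod_singleton, sum_sub_distrib, sum_const, card_univ,
      Fintype.card_fin, nsmul_eq_mul, mul_one]
  have hdsum : (d : ℝ) = ∑ j ∈ range (c + 1), E j := by
    rw [← hd]
    have e1 : ∀ i, x i = 1 + (x i - 1) := fun i => by ring
    rw [prod_congr rfl (fun i _ => e1 i), prod_one_add, sum_powerset, card_univ, Fintype.card_fin]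
  have h2c : ((2 : ℝ) ^ c) = ∑ j ∈ range (c + 1), (c.choose j : ℝ) := by
    have := Nat.sum_range_choose c
    have h := congrArg (fun t : ℕ => (t : ℝ)) this
    push_cast at h
    exact h.symm
  -- the key inequality
  have hkey : (a : ℝ) + 2 ^ c ≤ d + c + 2 := by
    have hsub : (d : ℝ) - 2 ^ c = ∑ j ∈ range (c + 1), (E j - (c.choose j : ℝ)) := by
      rw [sum_sub_distrib, ← hdsum, ← h2c]
    have hlow : ∑ j ∈ range (c + 1), ((if j = 1 then (a : ℝ) - c - c - 1 else 0)
        + (if 1 ≤ j ∧ j + 1 ≤ c then (1 : ℝ) else 0))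
        ≤ ∑ j ∈ range (c + 1), (E j - (c.choose j : ℝ)) := by
      apply sum_le_sum
      intro j _
      by_cases hj1 : j = 1
      · subst hj1
        have : (1 : ℕ) ≤ 1 ∧ 1 + 1 ≤ c := ⟨le_rfl, hc2⟩
        rw [if_pos rfl, if_pos this, hE1, Nat.choose_one_right]
        linarith
      · rw [if_neg hj1]
        split_ifs with h
        · have := hge1 j h.1 h.2
          linarith
        · have := hge j
          linarith
    rw [← hsub, sum_add_distrib, sum_ite_eq' (range (c + 1)) 1] at hlow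
    have hmem : 1 ∈ range (c + 1) := mem_range.mpr (by omega)
    rw [if_pos hmem, ← sum_filter, sum_const, nsmul_eq_mul, mul_one] at hlow
    have hcard : ((range (c + 1)).filter (fun j => 1 ≤ j ∧ j + 1 ≤ c)).card = c - 1 := by
      have : (range (c + 1)).filter (fun j => 1 ≤ j ∧ j + 1 ≤ c) = Icc 1 (c - 1) := by
        ext j
        rw [mem_filter, mem_range, mem_Icc]
        omega
      rw [this, Nat.card_Icc]
      omega
    rw [hcard] at hlow
    have : ((c - 1 : ℕ) : ℝ) = (c : ℝ) - 1 := by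
      rw [Nat.cast_sub hc0]; push_cast; ring
    rw [this] at hlow
    linarith
  have hkey' : a + 2 ^ c ≤ d + c + 2 := by exact_mod_cast hkey
  have ha2 : 2 * c ≤ a := by
    have h2 := hge 1
    rw [hE1, Nat.choose_one_right] at h2
    have : (2 * c : ℝ) ≤ a := by linarith
    exact_mod_cast this
  have hpow : 4 ≤ 2 ^ c := by
    calc 4 = 2 ^ 2 := by norm_num
      _ ≤ 2 ^ c := Nat.pow_le_pow_right (by norm_num) hc2
  have hsumC : ∑ i, (fun i => (x i : ℂ)) i = (a : ℂ) := by
    have h := congrArg (fun t : ℝ => (t : ℂ)) ha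
    push_cast at h
    exact h
  obtain ⟨m, hm2, hm⟩ := main c (n + c) a (fun i => (x i : ℂ))
    (fun i => by
      have := hx i
      have h2 : x i ≠ 0 := by linarith
      exact_mod_cast h2) hsumC (by omega) (by omega) (by omega) hz h0 h1 i1
  refine ⟨m, hm2, ?_⟩
  exact_mod_cast hm

end Pool.Agent.Lib.MP_776403_ag.NS
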