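import Pool.Agent.Lib.MP_776403_ag.NS.B

noncomputable section

namespace Pool.Agent.Lib.MP_776403_ag.NS

open Finset

/-- The Faulhaber polynomial `F_m(x) = (B_{m+1}(x + 1) - B_{m+1}(1)) / (m + 1)`, which is
`1^m + 2^m + ... + x^m` for a natural number `x` (`faulhaber_nat`). -/
def faulhaber (m : ℕ) (x : ℂ) : ℂ :=
  (Polynomial.aeval (x + 1) (Polynomial.bernoulli (m + 1))
    - Polynomial.aeval (1 : ℂ) (Polynomial.bernoulli (m + 1))) / (m + 1)

open Polynomial in
lemma bern_step (n : ℕ) (t : ℂ) :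
    aeval (t + 1) (Polynomial.bernoulli n) = aeval t (Polynomial.bernoulli n)
      + n * t ^ (n - 1) := by
  have h := congrArg (fun p : ℚ[X] => aeval t p) (Polynomial.bernoulli_comp_one_add_X n)
  simp only [aeval_comp, map_add, map_one, aeval_X, nsmul_eq_mul, map_mul, map_natCast,
    map_pow] at h
  rw [add_comm t 1]
  exact h

lemma faulhaber_zero (m : ℕ) : faulhaber m 0 = 0 := by
  unfold faulhaber
  rw [zero_add, sub_self, zero_div]

lemma faulhaber_step (m : ℕ) (x : ℂ) : faulhaber m (x + 1) = faulhaber m x + (x + 1) ^ m := by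
  unfold faulhaber
  have h := bern_step (m + 1) (x + 1)
  have hm : ((m : ℂ) + 1) ≠ 0 := by exact_mod_cast Nat.succ_ne_zero m
  rw [h]
  rw [Nat.add_sub_cancel]
  push_cast
  field_simp
  ring

/-- for a natural number `x` the Faulhaber polynomial is the sum of powers -/
theorem faulhaber_nat (m x : ℕ) : faulhaber m (x : ℂ) = ∑ k ∈ Icc 1 x, (k : ℂ) ^ m := by
  induction x with
  | zero => simp [faulhaber_zero]
  | succ x ih =>
    have e : ((x + 1 : ℕ) : ℂ) = (x : ℂ) + 1 := by push_cast; ring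
    rw [e, faulhaber_step, ih, sum_Icc_succ_top (by omega)]
    push_cast
    ring

/-! ### Equal power sums -/

section powersums

variable {σ : Type} [Fintype σ]

open MvPolynomial in
lemma esymm_eq (α β : σ → ℂ) (M : ℕ)
    (h : ∀ k : ℕ, 1 ≤ k → k ≤ M → ∑ s, α s ^ k = ∑ s, β s ^ k) :
    ∀ k : ℕ, k ≤ M → aeval α (esymm σ ℂ k) = aeval β (esymm σ ℂ k) := by
  classical
  intro k
  induction k using Nat.strong_induction_on with
  | _ k ih =>
    intro hk
    rcases Nat.eq_zero_or_pos k with h0 | h0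
    · subst h0
      simp [esymm_zero]
    have e1 := congrArg (fun p => aeval α p) (mul_esymm_eq_sum σ ℂ k)
    have e2 := congrArg (fun p => aeval β p) (mul_esymm_eq_sum σ ℂ k)
    simp only [map_mul, map_natCast, map_pow, map_neg, map_one, map_sum] at e1 e2
    have hps : ∀ (γ : σ → ℂ) (j : ℕ), aeval γ (psum σ ℂ j) = ∑ s, γ s ^ j := by
      intro γ j
      simp [psum]
    have e3 : ∑ a ∈ antidiagonal k with a.1 < k,
        (-1 : ℂ) ^ a.1 * aeval α (esymm σ ℂ a.1) * aeval α (psum σ ℂ a.2)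
        = ∑ a ∈ antidiagonal k with a.1 < k,
        (-1 : ℂ) ^ a.1 * aeval β (esymm σ ℂ a.1) * aeval β (psum σ ℂ a.2) := by
      apply sum_congr rfl
      intro a ha
      obtain ⟨ha1, ha2⟩ := mem_filter.mp ha
      have ha3 := mem_antidiagonal.mp ha1
      rw [ih a.1 ha2 (by omega), hps, hps, h a.2 (by omega) (by omega)]
    rw [e3, ← e2] at e1
    have hk0 : (k : ℂ) ≠ 0 := by exact_mod_cast h0.ne'
    exact mul_left_cancel₀ hk0 e1

open Polynomial in
lemma prod_eq (α β : σ → ℂ)
    (h : ∀ k : ℕ, 1 ≤ k → k ≤ Fintype.card σ → ∑ s, α s ^ k = ∑ s, β s ^ k) :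
    ∏ s, (X - C (α s)) = ∏ s, (X - C (β s)) := by
  classical
  have key : ∀ γ : σ → ℂ, ∏ s, (X - C (γ s)) =
      ∑ j ∈ range (Fintype.card σ + 1),
        (-1) ^ j * (C (MvPolynomial.aeval γ (MvPolynomial.esymm σ ℂ j))
          * X ^ (Fintype.card σ - j)) := by
    intro γ
    have := Multiset.prod_X_sub_X_eq_sum_esymm (Finset.univ.val.map γ)
    rw [Multiset.map_map, Multiset.card_map] at this
    have hc : Multiset.card (univ : Finset σ).val = Fintype.card σ := rfl
    rw [hc] at this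
    simp_rw [MvPolynomial.aeval_esymm_eq_multiset_esymm]
    exact this
  rw [key α, key β]
  apply sum_congr rfl
  intro j hj
  rw [esymm_eq α β (Fintype.card σ) h j (by have := mem_range.mp hj; omega)]

/-- if `α` and `β` have the same power sums up to the number of terms, every value of `β` is a
value of `α` -/
lemma mem_of_psum (α β : σ → ℂ)
    (h : ∀ k : ℕ, 1 ≤ k → k ≤ Fintype.card σ → ∑ s, α s ^ k = ∑ s, β s ^ k) (s : σ) :
    ∃ s', β s = α s' := by
  have h1 := congrArg (Polynomial.eval (β s)) (prod_eq α β h)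
  rw [Polynomial.eval_prod, Polynomial.eval_prod] at h1
  have h2 : ∏ s', Polynomial.eval (β s) (Polynomial.X - Polynomial.C (β s')) = 0 :=
    prod_eq_zero (mem_univ s) (by simp)
  rw [h2] at h1
  obtain ⟨s', _, hs'⟩ := prod_eq_zero_iff.mp h1
  refine ⟨s', ?_⟩
  simpa [sub_eq_zero] using hs'

end powersums

/-! ### The shift identity -/

section shift

variable {c a : ℕ} (x : Fin c → ℂ) (r : Fin a → ℂ)

open Polynomial in
/-- the difference of the sums of `Q` over `{r_j} ∪ {0^c}` and over `{r_j - 1} ∪ {x_i}` -/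
def Lam (Q : ℂ[X]) : ℂ :=
  (∑ j, Q.eval (r j) + c * Q.eval 0) - (∑ j, Q.eval (r j - 1) + ∑ i, Q.eval (x i))

open Polynomial in
lemma Lam_add (P Q : ℂ[X]) : Lam x r (P + Q) = Lam x r P + Lam x r Q := by
  unfold Lam
  simp only [eval_add, sum_add_distrib]
  ring

open Polynomial in
lemma Lam_C_mul (t : ℂ) (Q : ℂ[X]) : Lam x r (C t * Q) = t * Lam x r Q := by
  unfold Lam
  simp only [eval_mul, eval_C, ← mul_sum]
  ring

open Polynomial in
/-- the polynomial `B_{m+1}(X + 1)` -/
def bb (m : ℕ) : ℂ[X] := ((Polynomial.bernoulli (m + 1)).map (algebraMap ℚ ℂ)).comp (X + C 1)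

open Polynomial in
lemma bb_eval (m : ℕ) (t : ℂ) :
    (bb m).eval t = aeval (t + 1) (Polynomial.bernoulli (m + 1)) := by
  unfold bb
  rw [eval_comp, eval_add, eval_X, eval_C, eval_map_algebraMap]

open Polynomial in
lemma Lam_bb (ha : ∑ i, x i = a)
    (hr : ∀ m : ℕ, 1 ≤ m → m < a + c → ∑ j, r j ^ m = ∑ i, faulhaber m (x i))
    (m : ℕ) (hm : m < a + c) : Lam x r (bb m) = 0 := by
  have hm0 : ((m : ℂ) + 1) ≠ 0 := by exact_mod_cast Nat.succ_ne_zero m
  have h1 : ∑ j, r j ^ m = ∑ i, faulhaber m (x i) := by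
    rcases Nat.eq_zero_or_pos m with h0 | h0
    · subst h0
      have e : ∀ y : ℂ, faulhaber 0 y = y := by
        intro y
        have := bern_step 1 y
        unfold faulhaber
        rw [this]
        simp [Polynomial.bernoulli_one]
        ring
      simp only [pow_zero, sum_const, card_univ, Fintype.card_fin, nsmul_eq_mul, mul_one, e]
      exact ha.symm
    · exact hr m h0 hm
  have h2 : ∀ y : ℂ, ((m : ℂ) + 1) * faulhaber m y = (bb m).eval y - (bb m).eval 0 := by
    intro y
    rw [bb_eval, bb_eval, zero_add]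
    unfold faulhaber
    field_simp
  have h3 : ∀ y : ℂ, (bb m).eval y - (bb m).eval (y - 1) = ((m : ℂ) + 1) * y ^ m := by
    intro y
    rw [bb_eval, bb_eval, sub_add_cancel, bern_step, Nat.add_sub_cancel]
    push_cast
    ring
  unfold Lam
  have h4 : ∑ j, (bb m).eval (r j) - ∑ j, (bb m).eval (r j - 1) = ((m : ℂ) + 1) * ∑ j, r j ^ m := by
    rw [← sum_sub_distrib, mul_sum]
    exact sum_congr rfl (fun j _ => h3 _)
  have h5 : ∑ i, (bb m).eval (x i) - c * (bb m).eval 0
      = ((m : ℂ) + 1) * ∑ i, faulhaber m (x i) := by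
    rw [mul_sum, sum_congr rfl (fun i _ => h2 (x i)), sum_sub_distrib]
    simp
  linear_combination h4 - h5 + ((m : ℂ) + 1) * h1

open Polynomial in
lemma bern_natDegree_coeff (n : ℕ) :
    (Polynomial.bernoulli n).natDegree ≤ n ∧ (Polynomial.bernoulli n).coeff n = 1 := by
  constructor
  · rw [natDegree_le_iff_coeff_eq_zero]
    intro i hi
    rw [Polynomial.coeff_bernoulli]
    rw [if_neg (by omega)]
  · rw [Polynomial.coeff_bernoulli]
    simp

open Polynomial in
lemma bb_monic (m : ℕ) : (bb m).Monic ∧ (bb m).natDegree = m + 1 := by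
  have h := bern_natDegree_coeff (m + 1)
  have hne : (Polynomial.bernoulli (m + 1)).natDegree = m + 1 :=
    le_antisymm h.1 (le_natDegree_of_ne_zero (by rw [h.2]; exact one_ne_zero))
  have hmon : (Polynomial.bernoulli (m + 1)).Monic := by
    unfold Monic leadingCoeff
    rw [hne, h.2]
  constructor
  · unfold bb
    exact (hmon.map _).comp_X_add_C 1
  · unfold bb
    rw [natDegree_comp, natDegree_X_add_C, mul_one, hmon.natDegree_map, hne]

open Polynomial in
lemma Lam_zero (ha : ∑ i, x i = a)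
    (hr : ∀ m : ℕ, 1 ≤ m → m < a + c → ∑ j, r j ^ m = ∑ i, faulhaber m (x i)) :
    ∀ k : ℕ, k ≤ a + c → ∀ Q : ℂ[X], Q.natDegree ≤ k → Lam x r Q = 0 := by
  intro k
  induction k with
  | zero =>
    intro _ Q hQ
    obtain ⟨t, rfl⟩ : ∃ t, Q = C t := ⟨Q.coeff 0, eq_C_of_natDegree_le_zero hQ⟩
    unfold Lam
    simp only [eval_C, sum_const, card_univ, Fintype.card_fin, nsmul_eq_mul]
    ring
  | succ k ih =>
    intro hk Q hQ
    obtain ⟨hmon, hdeg⟩ := bb_monic k
    have hsplit : Q = (Q - C (Q.coeff (k + 1)) * bb k) + C (Q.coeff (k + 1)) * bb k := by ring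
    have hlow : (Q - C (Q.coeff (k + 1)) * bb k).natDegree ≤ k := by
      rw [natDegree_le_iff_coeff_eq_zero]
      intro i hi
      rw [coeff_sub, coeff_C_mul]
      rcases Nat.lt_or_ge (k + 1) i with h2 | h2
      · rw [coeff_eq_zero_of_natDegree_lt (by omega : Q.natDegree < i),
          coeff_eq_zero_of_natDegree_lt (by omega : (bb k).natDegree < i)]
        ring
      · obtain rfl : i = k + 1 := by omega
        have : (bb k).coeff (k + 1) = 1 := by
          have h3 := hmon.coeff_natDegree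
          rwa [hdeg] at h3
        rw [this]
        ring
    rw [hsplit, Lam_add, ih (by omega) _ hlow, Lam_C_mul, Lam_bb x r ha hr k (by omega)]
    ring

/-- the two families of `a + c` numbers -/
def alph : Fin a ⊕ Fin c → ℂ := Sum.elim r (fun _ => 0)

def bet : Fin a ⊕ Fin c → ℂ := Sum.elim (fun j => r j - 1) x

open Polynomial in
lemma psum_alph_bet (ha : ∑ i, x i = a)
    (hr : ∀ m : ℕ, 1 ≤ m → m < a + c → ∑ j, r j ^ m = ∑ i, faulhaber m (x i)) (k : ℕ)
    (hk : k ≤ a + c) :
    ∑ s, (alph (c := c) r) s ^ k = ∑ s, (bet x r) s ^ k := by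
  have h := Lam_zero x r ha hr k hk (X ^ k) (by rw [natDegree_X_pow])
  unfold Lam at h
  simp only [eval_pow, eval_X] at h
  rw [Fintype.sum_sum_type, Fintype.sum_sum_type]
  simp only [alph, bet, Sum.elim_inl, Sum.elim_inr, sum_const, card_univ, Fintype.card_fin,
    nsmul_eq_mul]
  linear_combination h

theorem chain (ha : ∑ i, x i = a)
    (hr : ∀ m : ℕ, 1 ≤ m → m < a + c → ∑ j, r j ^ m = ∑ i, faulhaber m (x i)) (i : Fin c) :
    ∃ m : ℕ, x i = m := by
  by_contra hcon
  push Not at hcon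
  have hmem := mem_of_psum (alph (c := c) r) (bet x r) (fun k _ hk => psum_alph_bet x r ha hr k
    (by simpa using hk))
  have hj : ∀ k : ℕ, ∃ j, r j = x i - k := by
    intro k
    induction k with
    | zero =>
      obtain ⟨s, hs⟩ := hmem (Sum.inr i)
      rcases s with j | i'
      · exact ⟨j, by simpa [alph, bet] using hs.symm⟩
      · exfalso
        apply hcon 0
        simpa [alph, bet] using hs
    | succ k ih =>
      obtain ⟨j, hj⟩ := ih
      obtain ⟨s, hs⟩ := hmem (Sum.inl j)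
      rcases s with j' | i'
      · refine ⟨j', ?_⟩
        have : r j - 1 = r j' := by simpa [alph, bet] using hs
        rw [← this, hj]
        push_cast
        ring
      · exfalso
        have : r j - 1 = 0 := by simpa [alph, bet] using hs
        apply hcon (k + 1)
        push_cast
        linear_combination this - hj
  choose f hf using hj
  have hinj : Function.Injective f := by
    intro k k' hkk
    have h1 := hf k
    rw [hkk, hf k'] at h1
    have : (k : ℂ) = k' := by linear_combination h1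
    exact_mod_cast this
  exact not_injective_infinite_finite f hinj

/-- the last step: if `P(1) = N + 1`, none of the `x_i` is `1` -/
theorem no_one (N : ℕ) (ha : ∑ i, x i = a) (haN : a ≤ N) (m : Fin c → ℕ) (hm : ∀ i, x i = m i)
    (hpos : ∀ i, 1 ≤ m i) (h1 : rrPoly N x 1 = N + 1) (i0 : Fin c) : m i0 ≠ 1 := by
  classical
  intro hi0
  have hsum : ∀ S : Finset (Fin c), ∑ i ∈ S, x i = ((∑ i ∈ S, m i : ℕ) : ℂ) := by
    intro S
    rw [Nat.cast_sum]
    exact sum_congr rfl (fun i _ => hm i)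
  have hma : ∑ i, m i = a := by
    have := hsum univ
    rw [ha] at this
    exact_mod_cast this.symm
  have hle : ∀ S : Finset (Fin c), ∑ i ∈ S, m i ≤ a := by
    intro S
    rw [← hma]
    exact sum_le_univ_sum_of_nonneg (fun i => Nat.zero_le _)
  have hcard : ∀ S : Finset (Fin c), S.card ≤ ∑ i ∈ S, m i := by
    intro S
    calc S.card = ∑ i ∈ S, 1 := by simp
      _ ≤ ∑ i ∈ S, m i := sum_le_sum (fun i _ => hpos i)
  -- the terms
  have hterm : ∀ S : Finset (Fin c), (-1 : ℂ) ^ S.card * gbinom (N + 1 - ∑ i ∈ S, x i) N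
      = if S = ∅ then (N : ℂ) + 1 else if ∑ i ∈ S, m i = 1 then -1 else 0 := by
    intro S
    have e : ((N : ℂ) + 1 - ∑ i ∈ S, x i) = ((N + 1 - ∑ i ∈ S, m i : ℕ) : ℂ) := by
      rw [hsum, Nat.cast_sub (by have := hle S; omega)]
      push_cast
      ring
    rw [e, gbinom_nat_choose]
    split_ifs with h2 h3
    · subst h2
      simp
    · have h4 := hcard S
      have h5 : 1 ≤ S.card := card_pos.mpr (nonempty_iff_ne_empty.mpr h2)
      have h6 : S.card = 1 := by omega
      rw [h3, h6, Nat.add_sub_cancel, Nat.choose_self]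
      simp
    · have h4 := hcard S
      have h5 : 1 ≤ S.card := card_pos.mpr (nonempty_iff_ne_empty.mpr h2)
      have h6 := hle S
      rw [Nat.choose_eq_zero_of_lt (by omega)]
      simp
  unfold rrPoly at h1
  rw [sum_congr rfl (fun S _ => hterm S), ← add_sum_erase univ _ (mem_univ (∅ : Finset (Fin c))),
    if_pos rfl] at h1
  have h2 : ∑ S ∈ univ.erase (∅ : Finset (Fin c)),
      (if S = ∅ then (N : ℂ) + 1 else if ∑ i ∈ S, m i = 1 then -1 else 0) = 0 := by
    linear_combination h1
  have h3 : ∑ S ∈ univ.erase (∅ : Finset (Fin c)),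
      (if S = ∅ then (N : ℂ) + 1 else if ∑ i ∈ S, m i = 1 then -1 else 0)
      = -(((univ.erase (∅ : Finset (Fin c))).filter (fun S => ∑ i ∈ S, m i = 1)).card : ℂ) := by
    rw [card_eq_sum_ones, Nat.cast_sum, ← sum_neg_distrib, sum_filter]
    apply sum_congr rfl
    intro S hS
    rw [if_neg (mem_erase.mp hS).1]
    split_ifs <;> simp
  rw [h3, neg_eq_zero] at h2
  have h4 : ((univ.erase (∅ : Finset (Fin c))).filter (fun S => ∑ i ∈ S, m i = 1)).card = 0 := by
    exact_mod_cast h2
  rw [card_eq_zero] at h4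
  have h5 : ({i0} : Finset (Fin c)) ∈
      (univ.erase (∅ : Finset (Fin c))).filter (fun S => ∑ i ∈ S, m i = 1) := by
    rw [mem_filter, mem_erase]
    exact ⟨⟨singleton_ne_empty _, mem_univ _⟩, by rw [sum_singleton, hi0]⟩
  rw [h4] at h5
  simp at h5

theorem mainLines (N : ℕ) (hx : ∀ i, x i ≠ 0) (ha : ∑ i, x i = a) (haN : a ≤ N)
    (hr : ∀ m : ℕ, 1 ≤ m → m < a + c → ∑ j, r j ^ m = ∑ i, faulhaber m (x i))
    (h1 : rrPoly N x 1 = N + 1) : ∀ i, ∃ m : ℕ, 2 ≤ m ∧ x i = m := by
  have h := chain x r ha hr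
  choose m hm using h
  have hpos : ∀ i, 1 ≤ m i := by
    intro i
    rcases Nat.eq_zero_or_pos (m i) with h0 | h0
    · exfalso
      apply hx i
      rw [hm i, h0, Nat.cast_zero]
    · exact h0
  intro i
  refine ⟨m i, ?_, hm i⟩
  have h2 := hpos i
  have h3 := no_one x N ha haN m hm hpos h1 i
  omega

end shift

end Pool.Agent.Lib.MP_776403_ag.NS
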